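import Pool.Agent.H889.PS.Num
import Pool.Graph.R_seed8.V11235.SL.Res
import Pool.Graph.R_seed8.V11235.SL.Uni

/-!
# The pro-`ℓ` section conjecture over `p`-adic fields, `ℓ ≠ p`, for curves of bad reduction which are covered étale by Galois coverings of the line with an `ℓ`-group and good branch locus

Let `k` be a finite extension of `ℚ_p`, or any complete discretely valued field of characteristic
zero with finite residue field, let `A` be its valuation ring, and let `ℓ` be a prime number which is
invertible in `A`.  Let `C` be a smooth projective curve over `k` with function field `F`, and let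
`x ∈ F` be a function, transcendental over `k`, that is, a covering `x : C → ℙ¹`.  Assume:

(a) There is a finite étale covering `C' → C_k̄`, for instance `C' = C_k̄`, such that `C' → ℙ¹` is a
Galois covering whose group is any `ℓ`-group, abelian or not, and whose branch points different from
infinity are roots of a polynomial `f ∈ A[x]` with invertible leading coefficient and separable
reduction.  (So `C` has good reduction over a finite extension of `k`.)

(b) `C` has bad reduction over `k`, in the sense that the Gauss valuation of `k(x)` has a prolongation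
to `F` whose value group is larger than the one of `k`.  (The special fibre of the normalisation of
`ℙ¹_A` in `F` has a multiple component; equivalently the inertia group of `k` acts nontrivially on the
special fibre of the smooth model of `C_k̄`.)

(c) The genus of `C` is positive: `C_k̄` has a connected étale covering of degree `ℓ`.

Let `M` be the maximal pro-`ℓ` extension of `k̄ F` that is unramified over `C`, so that `Gal(M/F)` is
the geometrically pro-`ℓ` fundamental group of `C`, the quotient of `π₁(C)` by the kernel of
`π₁(C_k̄) → π₁(C_k̄)^(pro-ℓ)`.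

**Theorem.**  For every section `s` of `Gal(M/F) → G_k` there is exactly one prolongation `W` to `M`
of the valuation of a point of `C_k̄` at which `x` is ramified such that the image of `s` is contained
in the decomposition group of `W`.  The point is a `k`-rational point of `C`, and `s` is the only
section whose image is contained in the decomposition group of `W`.

So the sections of the geometrically pro-`ℓ` fundamental group, up to conjugation, correspond
bijectively to the `k`-rational points of `C` at which `x` is ramified.  In particular, if there is no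
such point, then neither `Gal(M/F) → G_k` nor `π₁(C) → G_k` nor `π₁(U) → G_k` for an open subcurve `U`
has a section, and the section conjecture is true for `C`.

The theorem applies for instance to the following curves; in all cases `C' = C_k̄`, and `N = ℓ^j`.
* `d y^N = f(x)`, `f` as above with at least three roots, if the valuation of `d` is not divisible by
  `N` (it may be divisible by `ℓ`), and more generally `d y^N = ∏ f_i(x)^(m_i)` with `f = ∏ f_i`, if this
  is absolutely irreducible of positive genus;
* `d_i y_i^(N_i) = f_i(x)`, `1 ≤ i ≤ r`, where `f = ∏ f_i`, if one of the valuations of the `d_i` is not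
  divisible by `N_i`, and the genus is positive;
* the Fermat curves `a X^N + b Y^N = c Z^N`, `N ≥ 3`, if one of the valuations of `a/c` and `b/c` is not
  divisible by `N`; here `x = a X^N / (c Z^N)`, `f = x (x - 1)`, and every section comes from exactly one
  rational point with `XYZ = 0`;
* `d y^ℓ = g(a x^N)` with the function `a x^N`, if `g(x^N)` is as above and the valuation of `a` is not
  divisible by `N`;
* twists of Heisenberg coverings and of other coverings with nonabelian `ℓ`-groups;
and to all étale coverings `Y → C` of these curves, `Y` geometrically connected, with the property that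
the Galois group of the Galois closure of `Y → C` over `k̄` is an `ℓ`-group.  The theorems
`MP_c385f6_ag.ProEllSections` (`d y^ℓ = f(x)`, `ℓ ∣ deg f`), `MP_c385f6_ag.EtaleCoverings` (étale
coverings of these curves) and `MP_c385f6_ag.TwistsByRotations` (`d y^ℓ = g(a x^N)`) of the library are
special cases.

Here the theorem is stated for an arbitrary extension `N ⊇ M` of `F` in an algebraic closure `Ω`
instead of `M`: this includes `N = M` and the fields `N = F_U` with `Gal(F_U/F) = π₁(U)`.  The
fundamental group is described through valuations.  Let `U` be an open subcurve of `C`, let `Ω` be an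
algebraic closure of `F`, and let `F_U` be the maximal extension of `F` inside `Ω` which is unramified
over the closed points of `U`, that is, over their local rings, which are valuation rings of `F`.  Then
`π₁(U) = Gal(F_U/F)`, and the map `π₁(U) → G_k` is the restriction of automorphisms to the algebraic
closure of `k` in `Ω`.

Proof.  Let `κ = k̄`, and let `L` be the function field of `C'`.  Then `M` is also the maximal
unramified pro-`ℓ` extension of `L`, it is Galois over `κ(x)`, and `Gal(M/κ(x))` is a pro-`ℓ` group.
(1) Every extension of degree `ℓ` of `κ(x)` in `M` is generated by an `ℓ`-th root of a product of powers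
of the `x - e`, `e` a root of `f`, which is not an `ℓ`-th power modulo the maximal ideal of the Gauss
valuation ring.  So the decomposition group of a prolongation `O` of the Gauss valuation to `M` maps
onto the Frattini quotient of `Gal(M/κ(x))` and is everything, and `O` is the only prolongation.  Its
value group is the one of `κ`, `Gal(M/κ(x))` acts faithfully on its residue field, and every
automorphism of the residue field over that of `κ(x)` comes from it.  The residue field of `M` is
unramified over the one of `L`, because `M` can be embedded in a field of functions on an open disc,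
with `x` mapping to `e + u^(ℓ^j)` (Weierstrass preparation: the divisors of functions on the disc are
the ones of polynomials).
(2) For `σ` in the inertia group of `k` there is exactly one `γ_σ ∈ Gal(M/κ(x))` with the same action
as `s(σ)` on the residue field of `O`.  Let `[L : κ(x)] = ℓ^j` and let `δ^(ℓ^j)` be a uniformiser of `k`.
If `σ(δ) = δ`, then `γ_σ = 1`: it is trivial on `L`, as the group of the homomorphisms of tame inertia to
a cyclic group of order `ℓ^j` has order at most `ℓ^j`, and then a weight argument applies, which uses the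
finiteness of the class group of a function field over a finite field.  By (b) there is a `σ` with
`γ_σ ≠ 1`: otherwise every element of `F` has the value of an element of `k`.  So the `γ_σ` are a
cyclic group of order a power of `ℓ` different from one.
(3) An element `γ` of order `ℓ` of `Gal(M/κ(x))` fixes exactly one place `W` of `M`.  If it fixes none,
then the divisor of an eigenfunction `z` of `γ` at a finite level is the sum of the `γ^i D`, `i < ℓ`, for
a divisor `D` of degree zero.  Divisors of degree divisible by `ℓ` are principal modulo `ℓ` (by Tsen's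
theorem), so there is a `z'` such that the divisor of `z ∏ γ^i(z')` is divisible by `ℓ`; this element has
an `ℓ`-th root in `M`, and this contradicts `γ^ℓ = 1`.  If it fixes two, then, `M` being infinite
over `κ(x)` by (c), there is an invariant divisor of degree divisible by `ℓ` at a finite level with
multiplicities at the two places that are not proportional to those of the eigenfunctions, and a
similar argument gives a contradiction.
(4) By (3) the place fixed by the subgroup of order `ℓ` of the group of (2) is fixed by `s(G_k)`, and it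
is ramified.  Let `W'` be another ramified place fixed by `s(G_k)`, and let `c` be an element of order `ℓ`
of its stabiliser in `Gal(M/κ(x))`.  For a generator `τ` of tame inertia conjugation by `s(τ)` and by
`γ_τ` agree on `Gal(M/κ(x))`, by (1).  So the element `γ_τ c γ_τ⁻¹` of order `ℓ` fixes `γ_τ(W')` and
`s(τ)(W') = W'`.  By (3) `γ_τ` fixes `W'`, and again by (3) `W' = W`.  The uniqueness of `s` follows from
the triviality of the inertia group of `W` in `Gal(M/k̄ F)`.
-/

open Polynomial

namespace Pool.Agent.Results.MP_c385f6_ag.EllGroupCoverings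

section definitions

variable (ℓ : ℕ) (k F Ω : Type) [Field k] [Field F] [Field Ω] [Algebra k F] [Algebra F Ω]
  [Algebra k Ω]

/-- The inertia group of the valuation ring `W` of `Ω`, as a subgroup of `Gal(Ω/F)`: the
automorphisms of `Ω` over `F` that map `W` onto itself and act as the identity on its residue
field. -/
noncomputable def inertia (W : ValuationSubring Ω) : Subgroup (Ω ≃ₐ[F] Ω) :=
  (W.inertiaSubgroup F).map (W.decompositionSubgroup F).subtype

/-- `F_U`, for a set `U` of valuation rings of `F`: the elements of `Ω` fixed by the inertia groups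
of all valuation rings `W` of `Ω` with `W ∩ F ∈ U`.  If `Ω` is an algebraic closure of a field `F`
of characteristic zero, this is the maximal extension of `F` in `Ω` unramified over `U`. -/
noncomputable def unramified (U : Set (ValuationSubring F)) : IntermediateField F Ω :=
  ⨅ W : {W : ValuationSubring Ω // W.comap (algebraMap F Ω) ∈ U},
    IntermediateField.fixedField (inertia F Ω W.1)

/-- `k̄ F`, the compositum of `F` and of the algebraic closure of `k` in `Ω`. -/
noncomputable def geomField : IntermediateField F Ω :=
  IntermediateField.adjoin F (algebraicClosure k Ω : Set Ω)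

variable {F} in
/-- `k̄(x)`, the subfield of `Ω` generated by `x` and by the algebraic closure of `k` in `Ω`. -/
noncomputable def lineField (x : F) : IntermediateField (algebraicClosure k Ω) Ω :=
  IntermediateField.adjoin (algebraicClosure k Ω) {algebraMap F Ω x}

/-- The algebraic extension `L` of `K` in `Ω` is unramified at all valuation rings of `Ω` that
contain `k`: every nonzero element of `L` has the same valuation as an element of `K`.  (If `K` is
a function field of one variable over the algebraic closure of `k` and `k` has characteristic zero,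
then this says that `L/K` is unramified over all points of the smooth projective curve.) -/
def Unramified {k K Ω : Type} [Field k] [Field K] [Field Ω] [Algebra k Ω] [Algebra K Ω]
    (L : IntermediateField K Ω) : Prop :=
  ∀ W : ValuationSubring Ω, (∀ c : k, algebraMap k Ω c ∈ W) → ∀ z ∈ L, z ≠ 0 →
    ∃ t : K, t ≠ 0 ∧ z / algebraMap K Ω t ∈ W ∧ (z / algebraMap K Ω t)⁻¹ ∈ W

/-- `L/K` is a finite Galois extension whose degree is a power of `ℓ`. -/
def FiniteProEll (ℓ : ℕ) {K Ω : Type} [Field K] [Field Ω] [Algebra K Ω]
    (L : IntermediateField K Ω) : Prop :=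
  FiniteDimensional K L ∧ IsGalois K L ∧ ∃ m : ℕ, Module.finrank K L = ℓ ^ m

/-- The maximal unramified pro-`ℓ` extension of `K` in `Ω`: the compositum of the finite Galois
extensions of `K` whose degree is a power of `ℓ` and which are unramified. -/
noncomputable def maxProEll (ℓ : ℕ) (k K Ω : Type) [Field k] [Field K] [Field Ω] [Algebra k Ω]
    [Algebra K Ω] : IntermediateField K Ω :=
  ⨆ L : {L : IntermediateField K Ω // FiniteProEll ℓ L ∧ Unramified (k := k) L}, L.1

/-- `M`, the maximal unramified pro-`ℓ` extension of `k̄ F` in `Ω`, as an extension of `F`. -/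
noncomputable def proEllField : IntermediateField F Ω :=
  (maxProEll ℓ k (geomField k F Ω) Ω).restrictScalars F

/-- The map `τ : M → M` acts as `σ : K → K` on the elements that the fields `K` and `M` have in
common when they are regarded as subfields of `Ω` through `i` and `j`. -/
def ActsAs {K M Ω : Type} [Field K] [Field M] [Field Ω] (i : K →+* Ω) (j : M →+* Ω) (σ : K → K)
    (τ : M → M) : Prop :=
  ∀ c z, j z = i c → j (τ z) = i (σ c)

/-- Let `k ⊆ K ⊆ Ω` and `F ⊆ N ⊆ Ω` be fields.  A splitting of `Gal(N/F) → Gal(K/k)`: a continuous
homomorphism `s` from `Gal(K/k)` to `Gal(N/F)` such that `s(σ)` acts as `σ` on the elements of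
`K ∩ N`. -/
structure Splitting (K N : Type) [Field K] [Field N] [Algebra k K] [Algebra F N] [Algebra K Ω]
    [Algebra N Ω] where
  /-- the homomorphism `Gal(K/k) → Gal(N/F)` -/
  toHom : (K ≃ₐ[k] K) →* (N ≃ₐ[F] N)
  cont : Continuous toHom
  compat : ∀ σ : K ≃ₐ[k] K, ActsAs (algebraMap K Ω) (algebraMap N Ω) σ (toHom σ)

end definitions

section places

/-- The valuation ring `W` of `N` contains `k`. -/
def ContainsConstants (k : Type) {F N : Type} [Field k] [Field F] [Field N] [Algebra k F]
    [Algebra F N] (W : ValuationSubring N) : Prop :=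
  ∀ c : k, algebraMap F N (algebraMap k F c) ∈ W

/-- The covering `x` is ramified at the valuation ring `W` of `N`, where `k̄ F ⊆ N ⊆ Ω`: there is an
element `z ≠ 0` of `k̄ F` whose valuation is different from the valuations of all elements `t ≠ 0` of
`k̄(x)`. -/
def RamifiedAt (k Ω : Type) {F N : Type} [Field k] [Field F] [Field Ω] [Field N]
    [Algebra F Ω] [Algebra k Ω] [Algebra N Ω] (x : F) (W : ValuationSubring N) : Prop :=
  ∃ z : N, algebraMap N Ω z ∈ geomField k F Ω ∧ z ≠ 0 ∧
    ∀ t : N, algebraMap N Ω t ∈ lineField k Ω x → t ≠ 0 → ¬ (z / t ∈ W ∧ (z / t)⁻¹ ∈ W)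

/-- The residue field of `W ∩ F` is `k`. -/
def RationalResidue (k F : Type) {N : Type} [Field k] [Field F] [Field N] [Algebra k F]
    [Algebra F N] (W : ValuationSubring N) : Prop :=
  ∀ z : F, algebraMap F N z ∈ W → ∃ c : k, algebraMap F N (z - algebraMap k F c) ∈ W.nonunits

/-- The image of `s : Gal(K/k) → Gal(N/F)` in `Gal(M/F)`, where `M ⊆ N ⊆ Ω`, is contained in the
decomposition group of the valuation ring `W ∩ M`. -/
def InDecomposition {k F Ω K N : Type} [Field k] [Field F] [Field Ω] [Field K] [Field N]
    [Algebra k K] [Algebra F N] [Algebra F Ω] [Algebra K Ω] [Algebra N Ω]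
    (s : Splitting k F Ω K N) (M : IntermediateField F Ω) (W : ValuationSubring N) : Prop :=
  ∀ σ, ∀ z : N, algebraMap N Ω z ∈ M → (s.toHom σ z ∈ W ↔ z ∈ W)

/-- The splittings `s` and `s'` of `Gal(N/F) → Gal(K/k)` agree on `M`. -/
def AgreeOn {k F Ω K N : Type} [Field k] [Field F] [Field Ω] [Field K] [Field N]
    [Algebra k K] [Algebra F N] [Algebra F Ω] [Algebra K Ω] [Algebra N Ω]
    (M : IntermediateField F Ω) (s s' : Splitting k F Ω K N) : Prop :=
  ∀ σ, ∀ z : N, algebraMap N Ω z ∈ M → s.toHom σ z = s'.toHom σ z

/-- The splitting `s` of `Gal(N/F) → Gal(K/k)` induces on `M ⊆ N` the section of exactly one point at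
which `x` is ramified, and this is a `k`-rational point: there is a valuation ring `W` of `N` over `k`
at which `x` is ramified, with residue field `k` of `W ∩ F`, such that the image of `s` in `Gal(M/F)`
is contained in the decomposition group of `W ∩ M`; all splittings with the last property induce the
same section on `M`; and `W ∩ M` is the only valuation ring of `M` over `k` at which `x` is ramified
with this property. -/
def FromOneRamifiedPoint {k F Ω K N : Type} [Field k] [Field F] [Field Ω] [Field K] [Field N]
    [Algebra k F] [Algebra k K] [Algebra k Ω] [Algebra F N] [Algebra F Ω] [Algebra K Ω] [Algebra N Ω]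
    (x : F) (s : Splitting k F Ω K N) (M : IntermediateField F Ω) : Prop :=
  ∃ W : ValuationSubring N,
    ContainsConstants (F := F) k W ∧ RamifiedAt k Ω x W ∧ RationalResidue k F W ∧
    InDecomposition s M W ∧
    (∀ s' : Splitting k F Ω K N, InDecomposition s' M W → AgreeOn M s s') ∧
    ∀ W' : ValuationSubring N, ContainsConstants (F := F) k W' → RamifiedAt k Ω x W' →
      InDecomposition s M W' → ∀ z : N, algebraMap N Ω z ∈ M → (z ∈ W' ↔ z ∈ W)

end places

section curves

/-- `F` is a finite extension of `k(x)`, where `x` is transcendental over `k`. -/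
def IsCovering (k : Type) {F : Type} [Field k] [Field F] [Algebra k F] (x : F) : Prop :=
  Transcendental k x ∧ FiniteDimensional (IntermediateField.adjoin k {x}) F

/-- The leading coefficient of `f` is invertible and the reduction of `f` is separable. -/
def GoodPolynomial {A : Type} [CommRing A] [IsLocalRing A] (f : A[X]) : Prop :=
  IsUnit f.leadingCoeff ∧ (f.map (IsLocalRing.residue A)).Separable

/-- `L`, an extension of `k̄(x)` in `Ω`, is Galois of degree a power of `ℓ` over `k̄(x)`, it contains
`F`, it is unramified over `k̄ F`, and it is unramified over `k̄(x)` outside of infinity and of the zeros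
of the polynomial `f`: it is the function field of a curve `C'` which is a finite étale covering of
`C_k̄` and a Galois covering of the line with an `ℓ`-group, with branch points in the set of the zeros
of `f` and infinity. -/
structure EllGroupCovering (ℓ : ℕ) {k F Ω : Type} [Field k] [Field F] [Field Ω] [Algebra k F]
    [Algebra F Ω] [Algebra k Ω] (f : k[X]) (x : F)
    (L : IntermediateField (lineField k Ω x) Ω) : Prop where
  galois : FiniteProEll ℓ L
  contains : ∀ z : F, algebraMap F Ω z ∈ L
  etale : ∀ W : ValuationSubring Ω, (∀ c : k, algebraMap k Ω c ∈ W) → ∀ z ∈ L, z ≠ 0 →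
    ∃ t ∈ geomField k F Ω, t ≠ 0 ∧ z / t ∈ W ∧ (z / t)⁻¹ ∈ W
  branch : ∀ W : ValuationSubring Ω, (∀ c : k, algebraMap k Ω c ∈ W) → algebraMap F Ω x ∈ W →
    algebraMap F Ω (aeval x f) ∉ W.nonunits → ∀ z ∈ L, z ≠ 0 →
      ∃ t ∈ lineField k Ω x, t ≠ 0 ∧ z / t ∈ W ∧ (z / t)⁻¹ ∈ W

/-- `O` is a prolongation to `F` of the Gauss valuation ring of `k(x)`: if a polynomial with
coefficients in `A` has an invertible coefficient, then its value at `x` is a unit of `O`, and the
maximal ideal of `A` is contained in the one of `O`. -/
def GaussProlongation (A k : Type) {F : Type} [CommRing A] [IsLocalRing A] [Field k] [Field F]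
    [Algebra A k] [Algebra k F] (x : F) (O : ValuationSubring F) : Prop :=
  (∀ p : A[X], (∃ n, IsUnit (p.coeff n)) →
    aeval x (p.map (algebraMap A k)) ∈ O ∧ (aeval x (p.map (algebraMap A k)))⁻¹ ∈ O) ∧
  ∀ a ∈ IsLocalRing.maximalIdeal A, algebraMap k F (algebraMap A k a) ∈ O.nonunits

/-- Bad reduction: there is a prolongation `O` of the Gauss valuation of `k(x)` to `F`, and an element
`z ≠ 0` of `F` which does not have the same value as an element of `k`. -/
def GaussRamified (A k : Type) {F : Type} [CommRing A] [IsLocalRing A] [Field k] [Field F]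
    [Algebra A k] [Algebra k F] (x : F) : Prop :=
  ∃ O : ValuationSubring F, GaussProlongation A k x O ∧
    ∃ z : F, z ≠ 0 ∧ ∀ c : k, c ≠ 0 → ¬ (z / algebraMap k F c ∈ O ∧ (z / algebraMap k F c)⁻¹ ∈ O)

/-- The genus is positive: `k̄ F` has unramified extensions of degree a power of `ℓ` different from
`k̄ F`. -/
def PositiveGenus (ℓ : ℕ) (k F Ω : Type) [Field k] [Field F] [Field Ω] [Algebra k F] [Algebra F Ω]
    [Algebra k Ω] : Prop :=
  ¬ proEllField ℓ k F Ω ≤ geomField k F Ω

end curves

lemma iSup_congr_prop {α : Type} [CompleteLattice α] {P Q : α → Prop} (h : ∀ L, P L ↔ Q L) :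
    (⨆ L : {L // P L}, L.1) = ⨆ L : {L // Q L}, L.1 := by
  have h1 : P = Q := funext fun L => propext (h L)
  subst h1
  rfl

lemma proEll_eq (ℓ : ℕ) (k F Ω : Type) [Field k] [Field F] [Field Ω] [Algebra k F] [Algebra F Ω]
    [Algebra k Ω] : proEllField ℓ k F Ω = Pool.Agent.Y157.PS.geomPro ℓ k F Ω := by
  unfold proEllField Pool.Agent.Y157.PS.geomPro maxProEll Pool.Agent.Y157.PS.maxPro
  congr 1
  refine iSup_congr_prop fun L => ?_
  constructor
  · rintro ⟨⟨h1, h2, h3⟩, h4⟩
    refine ⟨⟨h1, h2, h3⟩, fun W hW z hz hz0 => ?_⟩
    obtain ⟨t, ht, h5, h6⟩ := h4 W hW z hz hz0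
    exact ⟨t, ht, div_ne_zero hz0 ((_root_.map_ne_zero _).2 ht), h5, h6⟩
  · rintro ⟨⟨h1, h2, h3⟩, h4⟩
    refine ⟨⟨h1, h2, h3⟩, fun W hW z hz hz0 => ?_⟩
    obtain ⟨t, ht, -, h5, h6⟩ := h4 W hW z hz hz0
    exact ⟨t, ht, h5, h6⟩

section proof

variable {ℓ : ℕ} {k F Ω : Type} [Field k] [CharZero k] [Field F] [Field Ω] [Algebra k F]
  [Algebra F Ω] [Algebra k Ω] [IsScalarTower k F Ω] [IsAlgClosure F Ω]

omit [CharZero k] [Algebra k F] [IsScalarTower k F Ω] [IsAlgClosure F Ω] in
lemma mem_proEll (c : algebraicClosure k Ω) : (c : Ω) ∈ proEllField ℓ k F Ω := by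
  have h1 : (c : Ω) ∈ geomField k F Ω := IntermediateField.subset_adjoin _ _ c.2
  exact (maxProEll ℓ k (geomField k F Ω) Ω).algebraMap_mem ⟨(c : Ω), h1⟩

/-- the algebraic closure of `k` inside `N` -/
def iota (N : IntermediateField F Ω) (hN : proEllField ℓ k F Ω ≤ N) : algebraicClosure k Ω →+* N where
  toFun c := ⟨(c : Ω), hN (mem_proEll c)⟩
  map_one' := Subtype.ext rfl
  map_mul' := fun _ _ => Subtype.ext rfl
  map_zero' := Subtype.ext rfl
  map_add' := fun _ _ => Subtype.ext rfl

omit [CharZero k] in
lemma iota_mem (N : IntermediateField F Ω) (hN : proEllField ℓ k F Ω ≤ N) (W : ValuationSubring N)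
    (h1 : ∀ c : k, algebraMap F N (algebraMap k F c) ∈ W) (c : algebraicClosure k Ω) :
    iota N hN c ∈ W := by
  have hcl : IsAlgClosed Ω := IsAlgClosure.isAlgClosed F
  have hι : ∀ c : k, iota N hN (algebraMap k (algebraicClosure k Ω) c) =
      algebraMap F N (algebraMap k F c) := by
    intro c
    apply Subtype.ext
    change algebraMap k Ω c = algebraMap F Ω (algebraMap k F c)
    exact IsScalarTower.algebraMap_apply k F Ω c
  have hacl : IsAlgClosure k (algebraicClosure k Ω) := inferInstance
  have hc : IsIntegral k c := (hacl.isAlgebraic.isAlgebraic c).isIntegral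
  obtain ⟨p, hp, hpc⟩ := hc
  let g : k →+* W :=
    { toFun := fun a => ⟨algebraMap F N (algebraMap k F a), h1 a⟩
      map_one' := Subtype.ext (by simp)
      map_mul' := fun a b => Subtype.ext (by simp)
      map_zero' := Subtype.ext (by simp)
      map_add' := fun a b => Subtype.ext (by simp) }
  have hint : IsIntegral W (iota N hN c) := by
    refine ⟨p.map g, hp.map g, ?_⟩
    rw [eval₂_map]
    have h2 : (algebraMap W N).comp g = (iota N hN).comp (algebraMap k (algebraicClosure k Ω)) := by
      ext1 a
      exact (hι a).symm
    rw [h2, ← hom_eval₂, hpc, map_zero]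
  obtain ⟨w, hw⟩ := (IsIntegrallyClosed.isIntegral_iff (R := W)).1 hint
  rw [← hw]
  exact w.2

omit [CharZero k] in
lemma exists_res (N : IntermediateField F Ω) (hN : proEllField ℓ k F Ω ≤ N)
    (W : ValuationSubring N) (h1 : ∀ c : k, algebraMap F N (algebraMap k F c) ∈ W)
    (h3 : RationalResidue k F W) (z : N) (hz : z ∈ W) : ∃ c, z - iota N hN c ∈ W.nonunits := by
  have hcl : IsAlgClosed Ω := IsAlgClosure.isAlgClosed F
  have halg : Algebra.IsAlgebraic F Ω := IsAlgClosure.isAlgebraic
  have hι : ∀ c : k, iota N hN (algebraMap k (algebraicClosure k Ω) c) =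
      algebraMap F N (algebraMap k F c) := by
    intro c
    apply Subtype.ext
    change algebraMap k Ω c = algebraMap F Ω (algebraMap k F c)
    exact IsScalarTower.algebraMap_apply k F Ω c
  have hacl : IsAlgClosure k (algebraicClosure k Ω) := inferInstance
  have hclK : IsAlgClosed (algebraicClosure k Ω) := hacl.isAlgClosed
  have hzalg : IsAlgebraic F z := by
    have h2 : IsAlgebraic F (z : Ω) := halg.isAlgebraic _
    exact (isAlgebraic_algebraMap_iff (R := F) (S := N) (A := Ω) (algebraMap N Ω).injective).1 h2
  exact Pool.Agent.V11235.SL.residue_alg (iota N hN) hι W (iota_mem N hN W h1) h3 z hzalg hz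

/-- there is only one section for every point -/
lemma unique_section (N : IntermediateField F Ω) (hN : proEllField ℓ k F Ω ≤ N)
    (s s' : Splitting k F Ω (algebraicClosure k Ω) N) (W : ValuationSubring N)
    (h1 : ∀ c : k, algebraMap F N (algebraMap k F c) ∈ W)
    (h3 : RationalResidue k F W) (h4 : InDecomposition s (proEllField ℓ k F Ω) W)
    (h4' : InDecomposition s' (proEllField ℓ k F Ω) W) : AgreeOn (proEllField ℓ k F Ω) s s' := by
  have hcl : IsAlgClosed Ω := IsAlgClosure.isAlgClosed F
  have halg : Algebra.IsAlgebraic F Ω := IsAlgClosure.isAlgebraic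
  have hc0 : CharZero Ω := charZero_of_injective_algebraMap (algebraMap k Ω).injective
  intro σ
  let τ : N ≃ₐ[F] N := (s.toHom σ).trans (s'.toHom σ).symm
  have hτ : ∀ z : N, s'.toHom σ (τ z) = s.toHom σ z := fun z =>
    (s'.toHom σ).apply_symm_apply _
  have hfixc : ∀ c : algebraicClosure k Ω, τ (iota N hN c) = iota N hN c := by
    intro c
    apply (s'.toHom σ).injective
    rw [hτ]
    apply Subtype.ext
    exact (s.compat σ c (iota N hN c) rfl).trans (s'.compat σ c (iota N hN c) rfl).symm
  have hgeo : geomField k F Ω ≤ Pool.Agent.V11235.SL.fixF N τ := by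
    refine IntermediateField.adjoin_le_iff.2 fun c hc => ?_
    exact ⟨hN (mem_proEll ⟨c, hc⟩), hfixc ⟨c, hc⟩⟩
  have hL : ∀ L : {L : IntermediateField (geomField k F Ω) Ω // FiniteProEll ℓ L ∧
      Unramified (k := k) L}, L.1 ≤ IntermediateField.extendScalars hgeo := by
    rintro ⟨L, ⟨hfin, hgal, hcard⟩, hun⟩
    intro z hz
    change z ∈ L at hz
    have hLM : ∀ z ∈ L, z ∈ proEllField ℓ k F Ω := by
      intro z hz
      have h5 : L ≤ maxProEll ℓ k (geomField k F Ω) Ω := by
        refine le_iSup (fun L : {L : IntermediateField (geomField k F Ω) Ω // FiniteProEll ℓ L ∧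
          Unramified (k := k) L} => L.1) ⟨L, ⟨hfin, hgal, hcard⟩, hun⟩
      exact h5 hz
    have hLN : ∀ z ∈ L, z ∈ N := fun z hz => hN (hLM z hz)
    obtain ⟨V, hV⟩ := Pool.Agent.Y157.PS.a_extv N Ω W
    have hVW : ∀ w : N, (w : Ω) ∈ V ↔ w ∈ W := by
      intro w
      rw [← hV]
      rfl
    have hkV : ∀ c : k, algebraMap k Ω c ∈ V := by
      intro c
      have h5 := (hVW (algebraMap F N (algebraMap k F c))).2 (h1 c)
      rw [IsScalarTower.algebraMap_apply k F Ω c]
      exact h5
    refine ⟨hLN z hz, ?_⟩
    refine Pool.Agent.V11235.SL.triv (geomField k F Ω) N L hLN W (iota N hN) (iota_mem N hN W h1)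
      (fun c => IntermediateField.subset_adjoin _ _ c.2) τ (fun w hw => (hgeo hw).2)
      (exists_res N hN W h1 h3) ?_ ?_ ⟨z, hLN z hz⟩ hz
    · intro w hw hw0
      have hw0' : (w : Ω) ≠ 0 := fun h => hw0 (Subtype.ext h)
      obtain ⟨t, ht0, h5, h6⟩ := hun V hkV w hw hw0'
      refine ⟨⟨(t : Ω), hLN _ (L.algebraMap_mem t)⟩, t.2, fun h => ht0 (Subtype.ext ?_),
        (hVW _).1 h5, (hVW _).1 h6⟩
      exact congrArg (fun r : N => (r : Ω)) h
    · intro w hw hw'
      rw [← h4 σ w (hLM _ hw), ← h4' σ (τ w) (hLM _ hw'), hτ]
  intro z hz
  have h5 : (z : Ω) ∈ IntermediateField.extendScalars hgeo := (iSup_le hL) hz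
  obtain ⟨h6, h7⟩ := (IntermediateField.mem_extendScalars hgeo).1 h5
  have h8 : τ z = z := h7
  rw [← hτ z, h8]

end proof

/-- the two forms of the definition of ramification -/
lemma ramified_iff {k F Ω : Type} [Field k] [Field F] [Field Ω] [Algebra k F]
    [Algebra F Ω] [Algebra k Ω] [IsScalarTower k F Ω] (x : F) (N : IntermediateField F Ω)
    (W : ValuationSubring N) : RamifiedAt k Ω x W ↔ Pool.Agent.H889.PS.RamP k x N W := by
  constructor
  · rintro ⟨z, hz, hz0, hzt⟩
    exact ⟨z, hz, hz0, fun t ht ht0 h => hzt t ht ht0 h.2⟩
  · rintro ⟨z, hz, hz0, hzt⟩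
    exact ⟨z, hz, hz0, fun t ht ht0 h => hzt t ht ht0 ⟨div_ne_zero hz0 ht0, h.1, h.2⟩⟩

/-- Let `A` be a complete discrete valuation ring with finite residue field and with field of
fractions `k` of characteristic zero, `ℓ` a prime number invertible in `A`, `F` the function field of a
curve `C` over `k`, `Ω` an algebraic closure of `F`, and `x ∈ F` a function which is transcendental
over `k`.  Assume that the genus of `C` is positive, that `C_k̄` has a finite étale covering `C'` such
that `C' → ℙ¹` is Galois with an `ℓ`-group and branched only at infinity and at zeros of a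
polynomial `f ∈ A[x]` with invertible leading coefficient and separable reduction, and that the Gauss
valuation of `k(x)` has a prolongation to `F` with a value group larger than that of `k`.  Let
`M = proEllField ℓ k F Ω`; then `M ⊆ F_U` for all sets `U` of valuation rings of `F` over `k`, in
particular for the set of all closed points of `C`.  Let `N ⊇ M` be an extension of `F` in `Ω`, for
instance `N = M` or `N = F_U`.  Then every section of `Gal(N/F) → G_k` induces on `M` the section of
exactly one of the points of `C_k̄` at which `x` is ramified, this is a `k`-rational point of `C`, and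
the section on `M` is determined by it. -/
theorem result (A k F Ω : Type) [CommRing A] [IsDomain A] [IsDiscreteValuationRing A]
    [IsAdicComplete (IsLocalRing.maximalIdeal A) A] [Finite (IsLocalRing.ResidueField A)]
    [Field k] [CharZero k] [Algebra A k] [IsFractionRing A k]
    [Field F] [Field Ω] [Algebra k F] [Algebra F Ω] [Algebra k Ω] [IsScalarTower k F Ω]
    [IsAlgClosure F Ω] (ℓ : ℕ) [Fact ℓ.Prime] (hℓ : IsUnit (ℓ : A)) (x : F)
    (hx : IsCovering k x) (hg : PositiveGenus ℓ k F Ω) (f : A[X]) (hf : GoodPolynomial f)
    (L : IntermediateField (lineField k Ω x) Ω)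
    (hL : EllGroupCovering ℓ (f.map (algebraMap A k)) x L) (hbad : GaussRamified A k x) :
    (∀ U : Set (ValuationSubring F), (∀ O ∈ U, ∀ c : k, algebraMap k F c ∈ O) →
      proEllField ℓ k F Ω ≤ unramified F Ω U) ∧
    ∀ N : IntermediateField F Ω, proEllField ℓ k F Ω ≤ N →
      ∀ s : Splitting k F Ω (algebraicClosure k Ω) N,
        FromOneRamifiedPoint x s (proEllField ℓ k F Ω) := by
  obtain ⟨hxt, hfin⟩ := hx
  obtain ⟨⟨hL1, hL2, hL3⟩, hFL, hLu, hLf⟩ := hL
  obtain ⟨O, ⟨hO1, hO2⟩, z₀, hz₀, hram⟩ := hbad
  have hcl : IsAlgClosed Ω := IsAlgClosure.isAlgClosed F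
  have halg : Algebra.IsAlgebraic F Ω := IsAlgClosure.isAlgebraic
  have hFx : Algebra.IsAlgebraic (IntermediateField.adjoin k {x}) F := inferInstance
  have heval : ∀ p : A[X], p.eval₂ ((algebraMap k F).comp (algebraMap A k)) x =
      aeval x (p.map (algebraMap A k)) := by
    intro p
    rw [aeval_def, eval₂_map]
  have hne : ∀ p : A[X], (∃ n, IsUnit (p.coeff n)) → aeval x (p.map (algebraMap A k)) ≠ 0 := by
    rintro p ⟨n, hn⟩ h0
    have h1 := (transcendental_iff.1 hxt) _ h0
    have h2 : algebraMap A k (p.coeff n) = 0 := by rw [← coeff_map, h1, coeff_zero]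
    rw [map_eq_zero_iff _ (IsFractionRing.injective A k)] at h2
    rw [h2] at hn
    exact not_isUnit_zero hn
  have hpro := proEll_eq ℓ k F Ω
  refine ⟨fun U hU => ?_, fun N hN s => ?_⟩
  · rw [hpro]
    exact (Pool.Agent.Y157.PS.a_ind ℓ k F Ω x hxt hFx U hU).1
  · have hN' : Pool.Agent.Y157.PS.geomPro ℓ k F Ω ≤ N := by rw [← hpro]; exact hN
    obtain ⟨W, ⟨⟨h1, h2, h3⟩, h4⟩, hun⟩ :=
      Pool.Agent.H889.PS.padicM' hℓ f hf.1 hf.2 x hxt hFx L ⟨hL1, hL2, hL3⟩ hFL
        (fun W hW z hz hz0 => by
          obtain ⟨t, ht, ht0, h5, h6⟩ := hLu W hW z hz hz0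
          exact ⟨t, ht, ht0, div_ne_zero hz0 ht0, h5, h6⟩)
        (fun W hW hxW hfW z hz hz0 => by
          obtain ⟨t, ht, ht0, h5, h6⟩ := hLf W hW hxW hfW z hz hz0
          exact ⟨t, ht, ht0, div_ne_zero hz0 ht0, h5, h6⟩)
        O (fun p hp => by
          rw [heval]
          exact ⟨hne p hp, hO1 p hp⟩) hO2 z₀ hz₀
        (fun c hc h => hram c hc h.2)
        (by
          have hg' := hg
          unfold PositiveGenus at hg'
          rw [hpro] at hg'
          obtain ⟨z, hz, hz'⟩ := Set.not_subset.1 hg'
          exact ⟨z, hz, hz'⟩)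
        N hN' s.toHom s.cont (fun σ c z hz => s.compat σ c z hz)
    have h4' : InDecomposition s (proEllField ℓ k F Ω) W := by
      rw [hpro]
      exact h4
    refine ⟨W, h1, (ramified_iff x N W).2 h2, h3, h4', fun s' hs' => ?_, fun W' b1 b2 b3 => ?_⟩
    · exact unique_section N hN s s' W h1 h3 h4' hs'
    · rw [hpro] at b3 ⊢
      exact hun W' b1 ((ramified_iff x N W').1 b2) b3

end Pool.Agent.Results.MP_c385f6_ag.EllGroupCoverings
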